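import Pool.Agent.R275.LIso10

/-!
MP_cd69b0_an, Q1: for every `r ∈ [1,∞)` and for real as well as complex scalars, the Bochner space
`L_∞([0,1]; L_r[0,1])` is isomorphic to `B_{r,∞}`, the `ℓ_∞`-sum of the spaces `ℓ_r^n`, `n ≥ 1`
(indexed below by `n = 0, 1, 2, ...` with block `ℓ_r^{n+1}`).
-/

open MeasureTheory
open scoped ENNReal

namespace Pool.Agent.Results.MP_cd69b0_an.IsoForAllR

/-- Lebesgue measure on `[0,1]`. -/
noncomputable abbrev leb : Measure ℝ := (volume : Measure ℝ).restrict (Set.Icc 0 1)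

section defs

variable (𝕜 : Type*) [RCLike 𝕜] (r : ℝ≥0∞)

/-- `L_r[0,1]`, with scalars `𝕜` (Mathlib's `Lp`). -/
def Lr : Type _ := Lp 𝕜 r leb

/-- `ℓ_r^n`, with scalars `𝕜` (Mathlib's `PiLp`). -/
def ellr (n : ℕ) : Type _ := PiLp r (fun _ : Fin n => 𝕜)

variable [Fact (1 ≤ r)]

/-- The norm of `L_r[0,1]` is that of Mathlib. -/
noncomputable instance : NormedAddCommGroup (Lr 𝕜 r) := (inferInstance : NormedAddCommGroup (Lp 𝕜 r leb))
/-- The vector space structure of `L_r[0,1]` is that of Mathlib. -/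
noncomputable instance : NormedSpace 𝕜 (Lr 𝕜 r) := (inferInstance : NormedSpace 𝕜 (Lp 𝕜 r leb))
/-- The norm of `ℓ_r^n` is that of Mathlib. -/
noncomputable instance (n : ℕ) : NormedAddCommGroup (ellr 𝕜 r n) :=
  (inferInstance : NormedAddCommGroup (PiLp r (fun _ : Fin n => 𝕜)))
/-- The vector space structure of `ℓ_r^n` is that of Mathlib. -/
noncomputable instance (n : ℕ) : NormedSpace 𝕜 (ellr 𝕜 r n) :=
  (inferInstance : NormedSpace 𝕜 (PiLp r (fun _ : Fin n => 𝕜)))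

/-- The Bochner space `L_∞([0,1]; L_r[0,1])` (Mathlib's `Lp` with exponent `∞`). -/
def LinfLr : Type _ := Lp (Lr 𝕜 r) ∞ leb

/-- `B_{r,∞}`: the `ℓ_∞`-sum of `ℓ_r^{n+1}`, `n = 0, 1, 2, ...` (Mathlib's `lp` with exponent `∞`). -/
def Brinf : Type _ := lp (fun n : ℕ => ellr 𝕜 r (n + 1)) ∞

/-- Mathlib's norm. -/
noncomputable instance : NormedAddCommGroup (LinfLr 𝕜 r) :=
  (inferInstance : NormedAddCommGroup (Lp (Lr 𝕜 r) ∞ leb))
/-- Mathlib's vector space structure. -/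
noncomputable instance : NormedSpace 𝕜 (LinfLr 𝕜 r) := (inferInstance : NormedSpace 𝕜 (Lp (Lr 𝕜 r) ∞ leb))
/-- Mathlib's norm. -/
noncomputable instance : NormedAddCommGroup (Brinf 𝕜 r) :=
  (inferInstance : NormedAddCommGroup (lp (fun n : ℕ => ellr 𝕜 r (n + 1)) ∞))
/-- Mathlib's vector space structure. -/
noncomputable instance : NormedSpace 𝕜 (Brinf 𝕜 r) :=
  (inferInstance : NormedSpace 𝕜 (lp (fun n : ℕ => ellr 𝕜 r (n + 1)) ∞))

end defs

/-- `L_∞([0,1]; L_r[0,1])` and `(⊕_{n ≥ 1} ℓ_r^n)_{ℓ_∞}` are isomorphic for every `1 ≤ r < ∞`. -/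
theorem result (𝕜 : Type*) [RCLike 𝕜] (r : ℝ≥0∞) [Fact (1 ≤ r)] (hr : r ≠ ∞) :
    Nonempty (LinfLr 𝕜 r ≃L[𝕜] Brinf 𝕜 r) :=
  Pool.Agent.R275.LIso.main hr

end Pool.Agent.Results.MP_cd69b0_an.IsoForAllR
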